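import Mathlib

set_option maxHeartbeats 1000000

namespace Pool.Agent.Results.MP_76d2cf_co.Counter

open Finset

/-- the rational polytope with vertex set among `V` -/
def poly {d : ℕ} (V : Finset (Fin d → ℚ)) : Set (Fin d → ℝ) :=
  convexHull ℝ ((fun v i => (v i : ℝ)) '' (V : Set (Fin d → ℚ)))

/-- the rational hyperplane `a · x = b` -/
def hyp {d : ℕ} (h : (Fin d → ℚ) × ℚ) : Set (Fin d → ℝ) := {x | ∑ i, (h.1 i : ℝ) * x i = h.2}

/-- the lattice `((1/t) ℤ)^d` -/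
def lat (d t : ℕ) : Set (Fin d → ℝ) := {x | ∀ i, ∃ z : ℤ, x i = z / t}

def Transverse {d : ℕ} (P : Set (Fin d → ℝ)) (H : Finset ((Fin d → ℚ) × ℚ)) : Prop :=
  (∀ h ∈ H, h.1 ≠ 0 ∧ ¬ P ⊆ hyp h) ∧
    ∀ S ⊆ H, S.Nonempty → (P ∩ ⋂ h ∈ S, hyp h).Nonempty →
      (intrinsicInterior ℝ P ∩ ⋂ h ∈ S, hyp h).Nonempty

/-- `E(t) = ∑_{k ≤ δ} c_k(t) t^k` for `t ≥ 1`, and `p k` is the minimal period of `c k`. -/
def Quasi (E : ℕ → ℕ) (δ : ℕ) (c : ℕ → ℕ → ℝ) (p : ℕ → ℕ) : Prop :=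
  (∀ t, 1 ≤ t → (E t : ℝ) = ∑ k ∈ range (δ + 1), c k t * (t : ℝ) ^ k) ∧
    ∀ k ≤ δ, IsLeast {q | 0 < q ∧ ∀ t, 1 ≤ t → c k (t + q) = c k t} (p k)

def VV : Finset (Fin 2 → ℚ) := {![-2, 0], ![2, 0], ![1, 1 / 2]}

theorem poly_eq : poly VV = {x | 0 ≤ x 1 ∧ 6 * x 1 - 2 ≤ x 0 ∧ x 0 ≤ 2 - 2 * x 1} := by
  apply Set.Subset.antisymm
  · apply convexHull_min
    · rintro _ ⟨v, hv, rfl⟩
      simp only [VV, coe_insert, coe_singleton, Set.mem_insert_iff, Set.mem_singleton_iff] at hv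
      rcases hv with rfl | rfl | rfl <;> norm_num
    · rintro x ⟨h1, h2, h3⟩ y ⟨k1, k2, k3⟩ a b ha hb hab
      simp only [Set.mem_setOf_eq, Pi.add_apply, Pi.smul_apply, smul_eq_mul]
      refine ⟨by positivity, by nlinarith, by nlinarith⟩
  · rintro x ⟨h1, h2, h3⟩
    have := (convex_convexHull ℝ ((fun v i => (v i : ℝ)) '' (VV : Set (Fin 2 → ℚ)))).sum_mem
      (t := (univ : Finset (Fin 3)))
      (w := ![(2 - 2 * x 1 - x 0) / 4, (x 0 - 6 * x 1 + 2) / 4, 2 * x 1])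
      (z := ![fun i => ((![-2, 0] : Fin 2 → ℚ) i : ℝ), fun i => ((![2, 0] : Fin 2 → ℚ) i : ℝ),
        fun i => ((![1, 1 / 2] : Fin 2 → ℚ) i : ℝ)])
      (fun i _ => by fin_cases i <;> simp <;> linarith) (by simp [Fin.sum_univ_three]; ring)
      (fun i _ => subset_convexHull _ _ (by fin_cases i <;> exact ⟨_, by simp [VV], rfl⟩))
    refine (?_ : _ = x) ▸ this
    funext i; fin_cases i <;> simp [Fin.sum_univ_three] <;> ring

theorem sub_int : {x : Fin 2 → ℝ | 0 < x 1 ∧ 6 * x 1 - 2 < x 0 ∧ x 0 < 2 - 2 * x 1} ⊆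
    interior (poly VV) := by
  apply interior_maximal
  · rw [poly_eq]; exact fun x h => ⟨h.1.le, h.2.1.le, h.2.2.le⟩
  · refine IsOpen.and ?_ (IsOpen.and ?_ ?_) <;> exact isOpen_lt (by fun_prop) (by fun_prop)

theorem span_top : affineSpan ℝ (poly VV) = ⊤ :=
  (convex_convexHull ℝ _).interior_nonempty_iff_affineSpan_eq_top.1
    ⟨![0, 1 / 4], sub_int (by norm_num)⟩

theorem int_eq : intrinsicInterior ℝ (poly VV) =
    {x | 0 < x 1 ∧ 6 * x 1 - 2 < x 0 ∧ x 0 < 2 - 2 * x 1} := by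
  refine Set.Subset.antisymm ?_ (sub_int.trans interior_subset_intrinsicInterior)
  intro x hx
  obtain ⟨y, hy, rfl⟩ := mem_intrinsicInterior.1 hx
  have key : ∀ v : Fin 2 → ℝ, ∃ s : ℝ, 0 < s ∧ y.1 + s • v ∈ poly VV := by
    intro v
    have hc : Continuous fun s : ℝ => (⟨y.1 + s • v, span_top.ge trivial⟩ :
      affineSpan ℝ (poly VV)) := by fun_prop
    have h1 := (hc.tendsto 0).eventually (p := fun z => z.1 ∈ poly VV)
      (by simp only [zero_smul, add_zero]; exact mem_interior_iff_mem_nhds.1 hy)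
    obtain ⟨s, h2, h3⟩ := ((h1.filter_mono (nhdsWithin_le_nhds (s := Set.Ioi 0))).and
      self_mem_nhdsWithin).exists
    exact ⟨s, h3, h2⟩
  generalize y.1 = x at key
  rw [poly_eq] at key
  obtain ⟨a, a0, a1, -⟩ := key ![0, -1]
  obtain ⟨b, b0, -, b1, -⟩ := key ![-1, 0]
  obtain ⟨c, c0, -, -, c1⟩ := key ![1, 0]
  simp at a1 b1 c1
  exact ⟨by linarith, by linarith, by linarith⟩

theorem count (t : ℕ) (ht : 1 ≤ t) (A : Set (Fin 2 → ℝ)) (F : Finset (Σ _ : ℕ, ℤ))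
    (h0 : ∀ x ∈ A, 0 < x 1)
    (h : ∀ (j : ℕ) (u : ℤ), (![(u : ℝ) / t, ((j : ℝ) + 1) / t] ∈ A ↔ (⟨j, u⟩ : Σ _ : ℕ, ℤ) ∈ F)) :
    (A ∩ lat 2 t).ncard = F.card := by
  have ht' : (0 : ℝ) < t := by exact_mod_cast ht
  rw [← Set.ncard_coe_finset, ← Set.ncard_image_of_injective (f := fun p : (Σ _ : ℕ, ℤ) =>
    (![(p.2 : ℝ) / t, ((p.1 : ℝ) + 1) / t] : Fin 2 → ℝ))]
  · congr 1; ext x
    constructor
    · rintro ⟨h1, h2⟩
      obtain ⟨u, hu⟩ := h2 0
      obtain ⟨v, hv⟩ := h2 1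
      have h3 := h0 x h1
      rw [hv, div_pos_iff_of_pos_right ht', Int.cast_pos] at h3
      obtain ⟨j, rfl⟩ : ∃ j : ℕ, v = j + 1 := ⟨(v - 1).toNat, by omega⟩
      have e : x = ![(u : ℝ) / t, ((j : ℝ) + 1) / t] := by
        funext i; fin_cases i <;> simp [hu, hv]
      exact ⟨⟨j, u⟩, (h j u).1 (e ▸ h1), e.symm⟩
    · rintro ⟨⟨j, u⟩, h1, rfl⟩
      refine ⟨(h j u).2 h1, fun i => ?_⟩
      fin_cases i
      · exact ⟨u, rfl⟩
      · exact ⟨j + 1, by simp⟩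
  · rintro ⟨j, u⟩ ⟨j', u'⟩ e
    have e0 := congrFun e 0
    have e1 := congrFun e 1
    simp [ht'.ne'] at e0 e1
    rw [e0, e1]

theorem sumA (A : ℤ) (s : ℕ) : ∑ j ∈ range s, (A - 8 * ((j : ℤ) + 1)) = s * A - 4 * s * (s + 1) := by
  induction s with
  | zero => simp
  | succ s ih => rw [sum_range_succ, ih]; push_cast; ring

theorem memP (t : ℕ) (ht : 1 ≤ t) (j : ℕ) (u : ℤ) :
    (![(u : ℝ) / t, ((j : ℝ) + 1) / t] : Fin 2 → ℝ) ∈ intrinsicInterior ℝ (poly VV) ↔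
      6 * ((j : ℤ) + 1) - 2 * t < u ∧ u < 2 * t - 2 * (j + 1) := by
  have ht' : (0 : ℝ) < t := by exact_mod_cast ht
  rw [int_eq]
  simp only [Set.mem_setOf_eq, Matrix.cons_val_one, Matrix.cons_val_zero]
  rw [lt_div_iff₀ ht' (a := 6 * _ - 2), div_lt_iff₀ ht', sub_mul, sub_mul, mul_assoc, mul_assoc,
    div_mul_cancel₀ _ ht'.ne']
  constructor
  · rintro ⟨-, h1, h2⟩; exact ⟨by exact_mod_cast h1, by exact_mod_cast h2⟩
  · rintro ⟨h1, h2⟩; exact ⟨by positivity, by exact_mod_cast h1, by exact_mod_cast h2⟩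

theorem result : ∃ (d : ℕ) (V : Finset (Fin d → ℚ)) (H : Finset ((Fin d → ℚ) × ℚ)) (δ : ℕ)
    (c cw : ℕ → ℕ → ℝ) (p pw : ℕ → ℕ) (k : ℕ),
    V.Nonempty ∧ δ = Module.finrank ℝ (vectorSpan ℝ (poly V)) ∧ Transverse (poly V) H ∧
    Quasi (fun t => ((intrinsicInterior ℝ (poly V) \ ⋃ h ∈ H, hyp h) ∩ lat d t).ncard) δ c p ∧
    Quasi (fun t => (intrinsicInterior ℝ (poly V) ∩ lat d t).ncard) δ cw pw ∧
    1 ≤ k ∧ k ≤ δ ∧ ¬ p k * pw (k - 1) ∣ p (k - 1) * pw k := by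
  refine ⟨2, VV, {(![1, -2], 0)}, 2, fun k _ => if k = 0 then 2 else if k = 1 then -3 else 1,
    fun k t => if k = 0 then (if t % 2 = 0 then 1 else 3 / 2) else if k = 1 then -5 / 2 else 1,
    fun _ => 1, fun k => if k = 0 then 2 else 1, 1, by simp [VV], ?_, ⟨?_, ?_⟩, ⟨?_, ?_⟩, ⟨?_, ?_⟩,
    le_rfl, by norm_num, by norm_num⟩
  · rw [← direction_affineSpan, span_top, AffineSubspace.direction_top, finrank_top]; simp
  · intro h hh
    rw [mem_singleton] at hh; subst hh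
    refine ⟨fun e => by simpa using congrFun e 0, fun e => ?_⟩
    have := e (a := ![1, 0]) (by rw [poly_eq]; norm_num)
    simp [hyp] at this
  · intro S hS _ _
    refine ⟨![1 / 2, 1 / 4], by rw [int_eq]; norm_num, ?_⟩
    simp only [Set.mem_iInter]
    intro h hh
    rw [mem_singleton.1 (hS hh)]; simp [hyp]; norm_num
  · intro t ht
    have ht' : (0 : ℝ) < t := by exact_mod_cast ht
    beta_reduce
    rw [count t ht _ ((range ((t - 1) / 2)).sigma fun j =>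
      (Ioo (6 * ((j : ℤ) + 1) - 2 * t) (2 * t - 2 * (j + 1))).erase (2 * (j + 1)))
      (fun x hx => by rw [int_eq] at hx; exact hx.1.1)]
    · have : ((((range ((t - 1) / 2)).sigma fun j => (Ioo (6 * ((j : ℤ) + 1) - 2 * t)
          (2 * t - 2 * (j + 1))).erase (2 * (j + 1))).card : ℕ) : ℤ) = t ^ 2 - 3 * t + 2 := by
        rw [card_sigma, Nat.cast_sum, sum_congr rfl (g := fun j : ℕ => (4 * t - 2 : ℤ) - 8 * (j + 1)),
          sumA]
        · obtain ⟨s, rfl | rfl⟩ : ∃ s, t = 2 * s + 1 ∨ t = 2 * s + 2 := ⟨(t - 1) / 2, by omega⟩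
          · rw [show (2 * s + 1 - 1) / 2 = s by omega]; push_cast; ring
          · rw [show (2 * s + 2 - 1) / 2 = s by omega]; push_cast; ring
        · intro j hj
          rw [mem_range] at hj
          rw [card_erase_of_mem (by rw [mem_Ioo]; omega), Int.card_Ioo]; omega
      have h2 := congrArg (Int.cast : ℤ → ℝ) this
      rw [Int.cast_natCast] at h2
      rw [h2]; simp [sum_range_succ]; ring
    · intro j u
      rw [Set.mem_diff, memP t ht]
      have : (![(u : ℝ) / t, ((j : ℝ) + 1) / t] : Fin 2 → ℝ) ∈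
          (⋃ h ∈ ({(![1, -2], 0)} : Finset ((Fin 2 → ℚ) × ℚ)), hyp h) ↔ u = 2 * (j + 1) := by
        simp only [mem_singleton, Set.iUnion_iUnion_eq_left, hyp, Fin.sum_univ_two,
          Set.mem_setOf_eq, Matrix.cons_val_zero, Matrix.cons_val_one]
        push_cast
        rw [show 1 * ((u : ℝ) / t) + -2 * ((j + 1) / t) = (u - 2 * (j + 1)) / t by ring,
          div_eq_zero_iff, sub_eq_zero, or_iff_left ht'.ne']
        exact_mod_cast Iff.rfl
      rw [this]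
      simp only [mem_sigma, mem_range, mem_erase, mem_Ioo]; omega
  · intro k _; exact ⟨⟨one_pos, fun _ _ => rfl⟩, fun q hq => hq.1⟩
  · intro t ht
    beta_reduce
    rw [count t ht _ ((range ((t - 1) / 2)).sigma fun j =>
      Ioo (6 * ((j : ℤ) + 1) - 2 * t) (2 * t - 2 * (j + 1)))
      (fun x hx => by rw [int_eq] at hx; exact hx.1)]
    · have : 2 * ((((range ((t - 1) / 2)).sigma fun j => Ioo (6 * ((j : ℤ) + 1) - 2 * t)
          (2 * t - 2 * (j + 1))).card : ℕ) : ℤ) =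
          2 * t ^ 2 - 5 * t + if t % 2 = 0 then 2 else 3 := by
        rw [card_sigma, Nat.cast_sum, sum_congr rfl (g := fun j : ℕ => (4 * t - 1 : ℤ) - 8 * (j + 1)),
          sumA]
        · obtain ⟨s, rfl | rfl⟩ : ∃ s, t = 2 * s + 1 ∨ t = 2 * s + 2 := ⟨(t - 1) / 2, by omega⟩
          · rw [show (2 * s + 1 - 1) / 2 = s by omega, if_neg (by omega)]; push_cast; ring
          · rw [show (2 * s + 2 - 1) / 2 = s by omega, if_pos (by omega)]; push_cast; ring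
        · intro j hj
          rw [mem_range] at hj
          rw [Int.card_Ioo]; omega
      have h2 := congrArg (Int.cast : ℤ → ℝ) this
      rw [Int.cast_mul, Int.cast_natCast] at h2
      simp only [sum_range_succ, range_zero, sum_empty]
      split_ifs at h2 ⊢ <;> first | contradiction | (push_cast at h2; linarith)
    · intro j u
      rw [memP t ht]
      simp only [mem_sigma, mem_range, mem_Ioo]; omega
  · intro k hk
    by_cases h : k = 0
    · subst h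
      simp only [if_true]
      refine ⟨⟨two_pos, fun t _ => by simp⟩, fun q hq => ?_⟩
      by_contra h
      have e : q = 1 := by have := hq.1; omega
      have := hq.2 1 le_rfl
      rw [e] at this; norm_num at this
    · simp only [if_neg h]; exact ⟨⟨one_pos, fun _ _ => by simp⟩, fun q hq => hq.1⟩

end Pool.Agent.Results.MP_76d2cf_co.Counter
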